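import Mathlib
import Pool.Agent.MP_450e1b_mp.Defs
import Pool.Agent.MP_450e1b_mp.Mg.Graph

namespace Pool.Agent.MP_450e1b_mp.Old.Lower12

open Pool.Agent.MP_450e1b_mp

/-- `Q_ex(12,6) ≥ 720`. -/
theorem result : 720 ≤ Qex 12 6 := Qex_12_6

end Pool.Agent.MP_450e1b_mp.Old.Lower12
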